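import Pool.Agent.WAQ.Defs

/-!
# Exports: the statements which the parts deliver to the induction (part I)

Universe: all fields live in `Type`.  Topologies: `F × F × F` with the product (norm) topology.
Same texts as `Pool/Agent/WAP/Exports.lean` with `Z` for the Gaussian integers, without the letter
`io` and without the place 2.  NEW: `RcgStmt` has a translation word `t`, `MEE` is only for the
matrix itself, `MEI` is dropped, `MCN`, `TNG`, `SWE`, `NEX`, `NEO`, `RPB`, `RXD` are new, `CXD` is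
dropped.
-/

namespace Pool.Agent.WAQ

open Classical

variable [Par]

/-- local or real field. -/
def IsLC (F : Type) [NormedField F] : Prop :=
  (∃ ϖ, IsLoc F ϖ) ∨ IsRe F

/-- inverse letter. -/
def Letter.inv : Letter → Letter
  | .act a b c e => .act e (-b) (-c) a
  | .sw => .sw
  | .t0 => .t0
  | .tp => .tp
  | .tm => .tm
  | .jj => .jj

/-- admissible letters: matrices of determinant 1. -/
def Letter.ok : Letter → Prop
  | .act a b c e => a * e - b * c = 1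
  | _ => True

/-- the point `(P, k P)` with `x(P) = τ`. -/
noncomputable def ck {F : Type} [Field F] (k : ℤ) (τ : F) : F × F × F :=
  kum (cub τ) (mkPt (cub τ) (τ * cub τ) (cub τ ^ 2))
    (sm k (mkPt (cub τ) (τ * cub τ) (cub τ ^ 2)))

/-- base change of a triple. -/
def bc {K F : Type} (σ : K → F) (z : K × K × K) : F × F × F := (σ z.1, σ z.2.1, σ z.2.2)

/-- the exceptional values on the curve `Q = O`. -/
def GoodX {F : Type} [Field F] (x : F) : Prop :=
  x ≠ 0 ∧ x ≠ ea F ∧ x ≠ eb F ∧ (ea F - eb F) * x ≠ ea F * eb F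

/-- the translation words: translation of `Q` by at most one point of order 2. -/
def TrW (t : List Letter) : Prop := t = [] ∨ t = [.t0] ∨ t = [.tp] ∨ t = [.tm]

/-! ## Part G (algebra over a field, `2 ≠ 0`) -/

/-- FRA: frames are arbitrary: if `z = kum d P Q` with `d ≠ 0` then
`actf a b c e z = kum d (aP + bQ) (cP + eQ)`, provided `z` is on `U`. -/
def FraStmt : Prop :=
  ∀ (F : Type) [Field F] [Gd F], (2 : F) ≠ 0 →
  ∀ (d : F) (P Q : Pt d) (a b c e : ℤ), d ≠ 0 → OnU (kum d P Q) →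
    actf a b c e (kum d P Q) = kum d (sm a P + sm b Q) (sm c P + sm e Q)

/-- FRE: the canonical frame of a point of `U` is a frame and consists of nonzero points. -/
def FreStmt : Prop :=
  ∀ (F : Type) [Field F] [Gd F], (2 : F) ≠ 0 →
  ∀ z : F × F × F, OnU z → cub z.1 ≠ 0 ∧ kum (cub z.1) (frP z) (frQ z) = z ∧
    frP z ≠ 0 ∧ frQ z ≠ 0

/-- INV: inverse letters. -/
def InvStmt : Prop :=
  ∀ (F : Type) [Field F] [Gd F], (2 : F) ≠ 0 →
  ∀ (l : Letter) (z z' : F × F × F), Step l z z' → Step l.inv z' z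

/-- CMP: composition of two matrices. -/
def CmpStmt : Prop :=
  ∀ (F : Type) [Field F] [Gd F], (2 : F) ≠ 0 →
  ∀ (a b c e a' b' c' e' : ℤ) (z z1 z2 : F × F × F),
    Step (.act a b c e) z z1 → Step (.act a' b' c' e') z1 z2 →
    Step (.act (a' * a + b' * c) (a' * b + b' * e) (c' * a + e' * c) (c' * b + e' * e)) z z2

/-- BCH: base change: a step over `F` starting from a `K`-rational point comes from a step over
`K`. -/
def BchStmt : Prop :=
  ∀ (K F : Type) [Field K] [Field F] [Gd K] [Gd F] (σ : K →+* F), (2 : F) ≠ 0 →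
  ∀ (l : Letter) (z : K × K × K) (z' : F × F × F), Step l (bc σ z) z' →
    ∃ z1 : K × K × K, Step l z z1 ∧ bc σ z1 = z'

/-- BCK: base change of the points `ck`. -/
def BckStmt : Prop :=
  ∀ (K F : Type) [Field K] [Field F] [Gd K] [Gd F] (σ : K →+* F), (2 : F) ≠ 0 →
  ∀ (k : ℤ) (τ : K), bc σ (ck k τ) = ck k (σ τ)

/-! ## Part T (topology) -/

/-- CON: letters have open domain in `U` and are continuous there. -/
def ConStmt : Prop :=
  ∀ (F : Type) [NormedField F], IsLC F →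
  ∀ (l : Letter) (z z' : F × F × F), Step l z z' → ∀ V : Set (F × F × F), IsOpen V → z' ∈ V →
    ∃ O : Set (F × F × F), IsOpen O ∧ z ∈ O ∧ ∀ z1 ∈ O, OnU z1 → ∃ z2 ∈ V, Step l z1 z2

/-- DEN: domains of admissible letters are dense in `U`. -/
def DenStmt : Prop :=
  ∀ (F : Type) [NormedField F], IsLC F →
  ∀ l : Letter, l.ok → ∀ V : Set (F × F × F), IsOpen V → (∃ z ∈ V, OnU z) →
    ∃ z ∈ V, ∃ z', Step l z z'

/-- RGO: the region is relatively open. -/
def RgoStmt : Prop :=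
  ∀ (F : Type) [NormedField F] (ϖ : ℤ), IsLoc F ϖ →
    ∀ z : F × F × F, RegO z → ∃ O : Set (F × F × F), IsOpen O ∧ z ∈ O ∧
      ∀ z1 ∈ O, OnU z1 → RegO z1

/-- NEX: there are points near the corner (in every open set containing the pairs
`(P, Q)`, `P` near the origin, `Q` much nearer to the origin). -/
def NexStmt : Prop :=
  ∀ (F : Type) [NormedField F] (ϖ : ℤ), IsLoc F ϖ → ∀ r : ℝ, 0 < r →
    ∃ z : F × F × F, NearE 0 r z

/-- NEO: the sets `NearE` are relatively open. -/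
def NeoStmt : Prop :=
  ∀ (F : Type) [NormedField F] (ϖ : ℤ), IsLoc F ϖ → ∀ (m0 : F) (r : ℝ), 0 < r →
    ∃ O : Set (F × F × F), IsOpen O ∧ (∀ z, NearE m0 r z → z ∈ O) ∧
      ∀ z ∈ O, OnU z → NearE m0 r z

/-- TNG: the curve `Q = O` near `x = x(T)`: the translate by `(T, O)` is near the corner. -/
def TngStmt : Prop :=
  ∀ (F : Type) [NormedField F] (ϖ : ℤ), IsLoc F ϖ →
  ∀ t : Letter, (t = .t0 ∨ t = .tp ∨ t = .tm) → ∀ ρ : ℝ, 0 < ρ →
    ∃ (x1 : F) (r : ℝ), 0 < r ∧ GoodX x1 ∧ ∀ z : F × F × F, NearG x1 r z →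
      ∃ z', Run [.sw, t, .sw] z z' ∧ NearE 0 ρ z'

/-! ## Part L (odd finite places) -/

/-- NQT: small multiples which are units at `ϖq`. -/
def NqtStmt : Prop :=
  ∀ (F : Type) [NormedField F] (ϖ ϖq : ℤ), IsLoc F ϖ →
    Prime ϖq → ¬ ϖq ∣ 2 → ϖ ≠ ϖq → ϖ ≤ ϖq →
    ∀ z : F × F × F, OnU z → ∀ O : Set (F × F × F), IsOpen O → z ∈ O →
    ∃ e : ℤ, ¬ ϖq ∣ e ∧ ∀ n : ℤ, e ∣ n →
      (∃ z' ∈ O, Step (.act 1 n 0 1) z z') ∧ (∃ z' ∈ O, Step (.act 1 0 n 1) z z')

/-- RCG (helper26): every open set is reached from a neighbourhood of a point of `Q = O` by a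
translation of the second coordinate, the swap and a matrix.
IDEA.  Let `(P1, Q1)` be in `V`.  By `Cyc` there are a matrix and a 2-torsion point `T` with
`(P1, Q1) = g (T + small, P')`. -/
def RcgStmt : Prop :=
  ∀ (F : Type) [NormedField F] (ϖ : ℤ), IsLoc F ϖ →
  ∀ V : Set (F × F × F), IsOpen V → (∃ z ∈ V, OnU z) →
    ∃ (t : List Letter) (a b c e : ℤ) (x1 : F) (r : ℝ), TrW t ∧ a * e - b * c = 1 ∧ 0 < r ∧
      GoodX x1 ∧ ∀ z : F × F × F, NearG x1 r z → ∃ z' ∈ V, Run (t ++ [.sw, .act a b c e]) z z'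

/-- MEE: a matrix near the corner (`a, c ≠ 0`, so no coordinate can vanish). -/
def MeeStmt : Prop :=
  ∀ (F : Type) [NormedField F] (ϖ : ℤ), IsLoc F ϖ →
  ∀ (a b c e : ℤ) (ρ : ℝ), a * e - b * c = 1 → a ≠ 0 → c ≠ 0 → 0 < ρ →
    ∃ r : ℝ, 0 < r ∧ ∀ z : F × F × F, NearE 0 r z → ∃ z', Step (.act a b c e) z z' ∧
        NearE (am F c / am F a) ρ z'

/-- MCN: continuity in the matrix (for the topology of `ϖ`) at a pair of points of the formal
group. -/
def McnStmt : Prop :=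
  ∀ (F : Type) [NormedField F] (ϖ : ℤ), IsLoc F ϖ →
  ∀ (a b c e : ℤ), a * e - b * c = 1 → ∀ z z' : F × F × F, 1 < ‖z.1‖ → 1 < ‖z.2.1‖ →
    Step (.act a b c e) z z' → ∀ V : Set (F × F × F), IsOpen V → z' ∈ V →
    ∃ N : ℕ, ∀ a' b' c' e' : ℤ, a' * e' - b' * c' = 1 →
      ϖ ^ N ∣ a' - a → ϖ ^ N ∣ b' - b → ϖ ^ N ∣ c' - c → ϖ ^ N ∣ e' - e →
      ∃ z1 ∈ V, Step (.act a' b' c' e') z z1

/-- SWE: a matrix `(ϖ ^ n, -1; 1, 0)` after which the swap is near the corner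
(`m (swf z) = 1 / m z`). -/
def SweStmt : Prop :=
  ∀ (F : Type) [NormedField F] (ϖ : ℤ), IsLoc F ϖ → ∀ ρ : ℝ, 0 < ρ →
    ∃ (a b c e : ℤ) (r : ℝ), a * e - b * c = 1 ∧ 0 < r ∧ ∀ z : F × F × F, NearE 0 r z →
      ∃ z', Step (.act a b c e) z z' ∧ NearE 0 ρ (swf z')

/-- RPB (helper26): a unipotent matrix divisible by `ϖ` keeps the region
(`u = kum d P Q`, `u' = kum d (P - b Q) Q`). -/
def RpbStmt : Prop :=
  ∀ (F : Type) [NormedField F] (ϖ : ℤ), IsLoc F ϖ →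
  ∀ (u : F × F × F) (b : ℤ), RegO u → ϖ ∣ b →
    ∃ u' : F × F × F, RegO u' ∧ Step (.act 1 b 0 1) u' u

/-- the approximation property of a point by the curves `ck`. -/
def Appr (F : Type) [NormedField F] (ϖ : ℤ) (u : F × F × F) : Prop :=
  ∀ O : Set (F × F × F), IsOpen O → u ∈ O → ∃ (k0 : ℤ) (N : ℕ) (T : Set F),
    IsOpen T ∧ T.Nonempty ∧ ∀ (k : ℤ) (τ : F), ϖ ^ N ∣ k - k0 → τ ∈ T →
      ck k τ ∈ O ∧ OnU (ck k τ)

/-- APO: approximation at the odd places. -/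
def ApoStmt : Prop :=
  ∀ (F : Type) [NormedField F] (ϖ : ℤ), IsLoc F ϖ → ∀ u : F × F × F, RegO u → Appr F ϖ u

/-! ## Part J -/

/-- JNE: `J` near a point of the exceptional curve, `m1 = a b / ((a - b) x1)`. -/
def JneStmt : Prop :=
  ∀ (F : Type) [NormedField F] (ϖ : ℤ), IsLoc F ϖ →
  ∀ (x1 : F) (ρ : ℝ), 0 < ρ → GoodX x1 →
    ∃ r : ℝ, 0 < r ∧ ∀ z : F × F × F, NearE (ea F * eb F / ((ea F - eb F) * x1)) r z →
      ∃ z', Step .jj z z' ∧ NearG x1 ρ z'

/-- JCO: `J` near the corner. -/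
def JcoStmt : Prop :=
  ∀ (F : Type) [NormedField F] (ϖ : ℤ), IsLoc F ϖ →
  ∀ ρ : ℝ, 0 < ρ → ∃ r : ℝ, 0 < r ∧ ∀ z : F × F × F, NearE 0 r z →
    ∃ z', Step .jj z z' ∧ NearE 0 ρ z'

/-! ## Real place -/

/-- RXD (helper95): the real place.  The type (identity component, egg) is not reached by `(P, k P)`;
there one letter `act 1 b 0 1` with `b` odd is used; `m` is odd, so the parity of `k` is free. -/
def RxdStmt : Prop :=
  ∀ V : Set (ℝ × ℝ × ℝ), IsOpen V → (∃ z ∈ V, OnU z) → ∀ b : ℤ, Odd b →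
    ∃ L : List Letter, (L = [] ∨ L = [.act 1 b 0 1]) ∧ ∀ k0 m : ℤ, Odd m →
      ∃ (k : ℤ) (T : Set ℝ), m ∣ k - k0 ∧ IsOpen T ∧ T.Nonempty ∧
        ∀ τ ∈ T, ∃ w ∈ V, Run L (ck k τ) w

end Pool.Agent.WAQ
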