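import Pool.Agent.WAQ.Curve

/-!
# Density of rational points on `y ^ 2 = f(x) * f(t)`, `f(x) = x (x - a) (x - b)`, over `Q`:
# definitions (squad WAQ, MP_ff4683_nt, second hand-in)

`a`, `b` are integers (class `Par`), `ea F`, `eb F` their images.
`E : Y ^ 2 = f(X)`; its quadratic twist by `d` is `W d : Y ^ 2 = X (X - d a) (X - d b)`
(file `Curve.lean`; `cX`, `cY`, `cz = cX / cY`; normalized coordinates `cX / d`, `cY / d ^ 2`).
A pair `(P, Q)` of points of `W d` gives the point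
`kum d P Q = (X(P)/d, X(Q)/d, Y(P) * Y(Q) / d ^ 3)` of the surface.
The ring of multipliers is `Z`; the letter `io` and the place 2 of the landed proof are not used.
-/

namespace Pool.Agent.WAQ

open Classical

/-- the homomorphism from the integers (written as in the files of squad WAP) -/
def am (F : Type) [Ring F] : ℤ →+* F := Int.castRingHom F

theorem am_apply (F : Type) [Ring F] (n : ℤ) : am F n = (n : F) := rfl

variable [Par]

/-- `f(x) = x (x - a) (x - b)`. -/
def cub {A : Type*} [CommRing A] (x : A) : A := x * (x - ea A) * (x - eb A)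

/-- The open part `y ≠ 0` of the affine surface `y ^ 2 = f(x) * f(t)`; a point is `(x, t, y)`. -/
def OnU {F : Type*} [Field F] (z : F × F × F) : Prop :=
  z.2.2 ^ 2 = cub z.1 * cub z.2.1 ∧ z.2.2 ≠ 0

/-- The points of the twist. -/
abbrev Pt {F : Type} [Field F] (d : F) : Type := (W d).Point

/-- the point of the surface given by a pair. -/
noncomputable def kum {F : Type} [Field F] (d : F) (P Q : Pt d) : F × F × F :=
  (cX P / d, cX Q / d, cY P * cY Q / d ^ 3)

/-- multiplication by the integer `a` on the twist. -/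
noncomputable def sm {F : Type} [Field F] {d : F} (a : ℤ) (P : Pt d) : Pt d := a • P

theorem sm_def {F : Type} [Field F] {d : F} (a : ℤ) (P : Pt d) : sm a P = a • P := rfl

section norm_coord
variable {F : Type} [Field F] {d : F}

/-- normalized coordinates `x = X / d`, `y = Y / d ^ 2` (0 at the origin), `d y ^ 2 = cub x`, and
the parameter `z = X / Y` at the origin. -/
noncomputable def xn (P : Pt d) : F := cX P / d
noncomputable def yn (P : Pt d) : F := cY P / d ^ 2
noncomputable def zc (P : Pt d) : F := cz P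

theorem xn_zero : xn (0 : Pt d) = 0 := by
  show (0 : F) / d = 0
  simp
theorem yn_zero : yn (0 : Pt d) = 0 := by
  show (0 : F) / d ^ 2 = 0
  simp
theorem zc_zero : zc (0 : Pt d) = 0 := by
  show (0 : F) / 0 = 0
  simp
theorem xn_some {X Y : F} (h : (W d).Nonsingular X Y) :
    xn (WeierstrassCurve.Affine.Point.some X Y h : Pt d) = X / d := rfl
theorem yn_some {X Y : F} (h : (W d).Nonsingular X Y) :
    yn (WeierstrassCurve.Affine.Point.some X Y h : Pt d) = Y / d ^ 2 := rfl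
theorem zc_some {X Y : F} (h : (W d).Nonsingular X Y) :
    zc (WeierstrassCurve.Affine.Point.some X Y h : Pt d) = X / Y := rfl

theorem kum_eq (hd : d ≠ 0) (P Q : Pt d) : kum d P Q = (xn P, xn Q, d * yn P * yn Q) := by
  unfold kum xn yn
  congr 2
  field_simp

end norm_coord

section frame
variable {F : Type} [Field F]

/-- the point `(X, Y)` of the twist if it lies on it (and is nonsingular), otherwise the origin. -/
noncomputable def mkPt (d X Y : F) : Pt d :=
  if h : (W d).Nonsingular X Y then .some X Y h else .zero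

/-- the canonical pair of a point `(x, t, y)` of the surface, `d = f(x)`. -/
noncomputable def frP (z : F × F × F) : Pt (cub z.1) :=
  mkPt (cub z.1) (z.1 * cub z.1) (cub z.1 ^ 2)
noncomputable def frQ (z : F × F × F) : Pt (cub z.1) :=
  mkPt (cub z.1) (z.2.1 * cub z.1) (z.2.2 * cub z.1)

/-- the 2-torsion points `(e * d, 0)`, `e = 0, ea F, eb F`. -/
noncomputable def tor (d e : F) : Pt d := mkPt d (e * d) 0

end frame

/-! ## Moves -/

section moves
variable {F : Type} [Field F]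

/-- `(P, Q) ↦ (a P + b Q, c P + e Q)` on triples. -/
noncomputable def actf (a b c e : ℤ) (z : F × F × F) : F × F × F :=
  kum (cub z.1) (sm a (frP z) + sm b (frQ z)) (sm c (frP z) + sm e (frQ z))

/-- `(P, Q) ↦ (Q, P)`. -/
def swf (z : F × F × F) : F × F × F := (z.2.1, z.1, z.2.2)
/-- `(P, Q) ↦ (P, Q + (0, 0))`. -/
noncomputable def t0f (z : F × F × F) : F × F × F :=
  (z.1, ea F * eb F / z.2.1, -(ea F * eb F) * z.2.2 / z.2.1 ^ 2)
/-- `(P, Q) ↦ (P, Q + (a, 0))`. -/
noncomputable def tpf (z : F × F × F) : F × F × F :=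
  (z.1, ea F * (z.2.1 - eb F) / (z.2.1 - ea F),
    -(ea F * (ea F - eb F)) * z.2.2 / (z.2.1 - ea F) ^ 2)
/-- `(P, Q) ↦ (P, Q + (b, 0))`. -/
noncomputable def tmf (z : F × F × F) : F × F × F :=
  (z.1, eb F * (z.2.1 - ea F) / (z.2.1 - eb F),
    -(eb F * (eb F - ea F)) * z.2.2 / (z.2.1 - eb F) ^ 2)

/-- `w = y / ((x - a) (x - b) (t - b))` -/
noncomputable def jw (z : F × F × F) : F :=
  z.2.2 / ((z.1 - ea F) * (z.1 - eb F) * (z.2.1 - eb F))
/-- `δ = - b w / (1 - w)` -/
noncomputable def jd (z : F × F × F) : F := -(eb F) * jw z / (1 - jw z)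
/-- `α = (x t - δ ^ 2) / (x - δ)` -/
noncomputable def ja (z : F × F × F) : F := (z.1 * z.2.1 - jd z ^ 2) / (z.1 - jd z)
/-- `x' = (δ - α)(δ(δ - α) - a b w ^ 2)/(w ^ 2 (α - b) x)` -/
noncomputable def jx (z : F × F × F) : F :=
  (jd z - ja z) * (jd z * (jd z - ja z) - ea F * eb F * jw z ^ 2) /
    (jw z ^ 2 * (ja z - eb F) * z.1)
/-- `t' = α + δ(δ - α)/x'` -/
noncomputable def jt (z : F × F × F) : F := ja z + jd z * (jd z - ja z) / jx z
/-- the involution `j` (at the node `(0,0)`) -/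
noncomputable def jf (z : F × F × F) : F × F × F :=
  (jx z, jt z, jw z * ((jx z - ea F) * (jx z - eb F)) * (jt z - eb F))

/-- domain of `j` (all conditions are invariant under `j`). -/
def jD (z : F × F × F) : Prop :=
  OnU z ∧ jw z ≠ 1 ∧ z.1 ≠ jd z ∧ ja z ≠ eb F ∧ jd z ≠ ja z ∧
    jd z * (jd z - ja z) - ea F * eb F * jw z ^ 2 ≠ 0 ∧ jx z ≠ jd z ∧
    (jx z - ea F) * (jx z - eb F) ≠ 0

/-- translation by `((0,0),(0,0))`: `(x, t, y) ↦ (ab/x, ab/t, (ab)^2 y/(x^2 t^2))`. -/
noncomputable def t00f (z : F × F × F) : F × F × F :=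
  (ea F * eb F / z.1, ea F * eb F / z.2.1, (ea F * eb F) ^ 2 * z.2.2 / (z.1 ^ 2 * z.2.1 ^ 2))

/-- `J = τ j τ`, the involution at the origin node. -/
noncomputable def JJf (z : F × F × F) : F × F × F := t00f (jf (t00f z))
/-- domain of `J` -/
def JD (z : F × F × F) : Prop := jD (t00f z)

/-- slope coordinate `m = z(Q)/z(P) = y / (x (t - a) (t - b))`. -/
noncomputable def mz (z : F × F × F) : F :=
  z.2.2 / (z.1 * ((z.2.1 - ea F) * (z.2.1 - eb F)))

end moves

/-- letters of the words. -/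
inductive Letter
  | act (a b c e : ℤ)
  | sw | t0 | tp | tm | jj

/-- one step: `z'` is the image of `z` under the letter (matrices must have determinant 1). -/
def Step {F : Type} [Field F] (l : Letter) (z z' : F × F × F) : Prop :=
  OnU z ∧ OnU z' ∧
  match l with
  | .act a b c e => a * e - b * c = 1 ∧ z' = actf a b c e z
  | .sw => z' = swf z
  | .t0 => z' = t0f z
  | .tp => z' = tpf z
  | .tm => z' = tmf z
  | .jj => JD z ∧ z' = JJf z

/-- a word maps `z` to `z'` (the letters are applied from the head of the list on). -/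
def Run {F : Type} [Field F] : List Letter → F × F × F → F × F × F → Prop
  | [], z, z' => OnU z ∧ z' = z
  | l :: L, z, z' => ∃ z1, Step l z z1 ∧ Run L z1 z'

/-! ## Local fields -/

/-- the hypothesis on the prime `p`: for every twist `E^δ` over the field with `p` elements the group
`E^δ(F_p) / E[2]` is cyclic. -/
def Cyc (p : ℕ) : Prop :=
  ∀ _ : Fact p.Prime, ∀ δ : ZMod p, δ ≠ 0 →
    ∃ g : (@W _ (ZMod p) _ δ).Point, ∀ P : (@W _ (ZMod p) _ δ).Point, ∃ k : ℤ,
      (2 : ℤ) • (P - k • g) = 0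

/-- `F` behaves like the completion of `Q` at the odd prime `ϖ`, and the curve has good reduction and
satisfies `Cyc`. -/
structure IsLoc (F : Type) [NormedField F] (ϖ : ℤ) : Prop where
  prime : Prime ϖ
  pos : 0 < ϖ
  odd : ¬ ϖ ∣ 2
  gda : ¬ ϖ ∣ Par.a
  gdb : ¬ ϖ ∣ Par.b
  gdab : ¬ ϖ ∣ Par.a - Par.b
  cyc : Cyc ϖ.natAbs
  ultra : ∀ x y : F, ‖x + y‖ ≤ max ‖x‖ ‖y‖
  int : ∀ a : ℤ, ‖am F a‖ ≤ 1
  lt_one : ∀ a : ℤ, ‖am F a‖ < 1 ↔ ϖ ∣ a
  res : ∀ x : F, ‖x‖ ≤ 1 → ∃ a : ℤ, ‖x - am F a‖ < 1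
  val : ∀ x : F, x ≠ 0 → ∃ n : ℤ, ‖x‖ = ‖am F ϖ‖ ^ n
  uni : 0 < ‖am F ϖ‖
  complete : CompleteSpace F
  sqrt : ∀ x : F, ‖x - 1‖ < ‖(4 : F)‖ → ∃ r : F, r ^ 2 = x ∧ ‖r - 1‖ * ‖(2 : F)‖ ≤ ‖x - 1‖

section basic
variable {F : Type} [NormedField F] {ϖ : ℤ}

theorem IsLoc.norm_am (h : IsLoc F ϖ) {a : ℤ} (ha : ¬ ϖ ∣ a) : ‖am F a‖ = 1 := by
  refine le_antisymm (h.int a) ?_
  by_contra hcon
  exact ha ((h.lt_one a).mp (not_le.mp hcon))

theorem IsLoc.am_ne (h : IsLoc F ϖ) {a : ℤ} (ha : a ≠ 0) : am F a ≠ 0 := by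
  have hfin : FiniteMultiplicity ϖ a := by
    refine FiniteMultiplicity.of_prime_left h.prime ha
  obtain ⟨c, hc, hc2⟩ := hfin.exists_eq_pow_mul_and_not_dvd
  rw [hc, map_mul, map_pow]
  refine mul_ne_zero (pow_ne_zero _ ?_) ?_
  · intro h0
    have := h.uni
    rw [h0, norm_zero] at this
    exact lt_irrefl _ this
  · intro h0
    have := h.norm_am hc2
    rw [h0, norm_zero] at this
    exact zero_ne_one this

theorem IsLoc.charZero (h : IsLoc F ϖ) : CharZero F := by
  refine charZero_of_inj_zero fun n hn => ?_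
  by_contra hne
  have := h.am_ne (a := (n : ℤ)) (by exact_mod_cast hne)
  apply this
  rw [am_apply]
  simpa using hn

theorem IsLoc.norm_two (h : IsLoc F ϖ) : ‖(2 : F)‖ = 1 := by
  have := h.norm_am h.odd
  rwa [am_apply, Int.cast_ofNat] at this

theorem IsLoc.two_ne (h : IsLoc F ϖ) : (2 : F) ≠ 0 := by
  intro h0
  have := h.norm_two
  rw [h0, norm_zero] at this
  exact zero_ne_one this

theorem IsLoc.norm_ea (h : IsLoc F ϖ) : ‖ea F‖ = 1 := h.norm_am h.gda
theorem IsLoc.norm_eb (h : IsLoc F ϖ) : ‖eb F‖ = 1 := h.norm_am h.gdb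
theorem IsLoc.norm_eab (h : IsLoc F ϖ) : ‖ea F - eb F‖ = 1 := by
  have := h.norm_am h.gdab
  rwa [map_sub] at this

theorem IsLoc.gd (h : IsLoc F ϖ) : Gd F := by
  haveI := h.charZero
  infer_instance

end basic

/-- `F` is the field of real numbers (with its absolute value). -/
def IsRe (F : Type) [NormedField F] : Prop := ∃ σ : F ≃+* ℝ, ∀ x, ‖σ x‖ = ‖x‖

theorem IsRe.charZero {F : Type} [NormedField F] (h : IsRe F) : CharZero F := by
  obtain ⟨σ, _⟩ := h
  exact charZero_of_injective_ringHom (f := σ.symm.toRingHom) σ.symm.injective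

section size
variable {F : Type} [NormedField F] {d : F}

/-- `P` is the origin or `N < |x(P)|`. -/
def Big (N : ℝ) (P : Pt d) : Prop := P = 0 ∨ N < ‖cX P / d‖

/-- `z` is near the point of the exceptional curve over the origin node with slope `m0`. -/
def NearE (m0 : F) (r : ℝ) (z : F × F × F) : Prop :=
  OnU z ∧ 1 / r < ‖z.1‖ ∧ 1 / r < ‖z.2.1‖ ∧ ‖mz z - m0‖ < r

/-- `z` is near the point `x = x1` of the curve `Q = O`. -/
def NearG (x1 : F) (r : ℝ) (z : F × F × F) : Prop :=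
  OnU z ∧ ‖z.1 - x1‖ < r ∧ 1 / r < ‖z.2.1‖

/-- the region `N_v`: `|x|, |t| > 1`, `0 < |m| ≤ 1`. -/
def RegO (z : F × F × F) : Prop := OnU z ∧ 1 < ‖z.1‖ ∧ 1 < ‖z.2.1‖ ∧ ‖mz z‖ ≤ 1

end size

end Pool.Agent.WAQ
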