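import Pool.Agent.WAQ.Exports

/-!
# Part I: induction, main step, final assembly (squad WAQ)

Texts as in `Pool/Agent/WAP/StmtsI.lean` (with `Z`, without the place 2), except `MST`, which is now
proved with the relation `RR` (rows `RTR`, `RCJ`, `RBS`, `RJG`), and `FIN` (real place).
-/

namespace Pool.Agent.WAQ

open Classical

variable [Par]

/-- inverse word. -/
def invW (L : List Letter) : List Letter := (L.map Letter.inv).reverse

/-- APP. Concatenation: `Run (L ++ M) z z'` iff there is a middle point.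
PROOF. Induction on `L`; `Run L z z'` implies `OnU z` and `OnU z'`. -/
def AppStmt : Prop :=
  ∀ (F : Type) [Field F] (L M : List Letter) (z z' : F × F × F),
    (Run (L ++ M) z z' ↔ ∃ z1, Run L z z1 ∧ Run M z1 z') ∧
    (Run L z z' → OnU z ∧ OnU z' ∧ ∀ l ∈ L, l.ok)

/-- FUN. `Run` is functional.  PROOF. In `Step l z z'` the point `z'` is a function of `z`. -/
def FunStmt : Prop :=
  ∀ (F : Type) [Field F] (L : List Letter) (z z1 z2 : F × F × F),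
    Run L z z1 → Run L z z2 → z1 = z2

/-- RUI (uses INV, APP). Inverse words. PROOF. Induction on `L`, `invW (l :: L) = invW L ++ [l.inv]`. -/
def RuiStmt : Prop :=
  ∀ (F : Type) [Field F] [Gd F], (2 : F) ≠ 0 →
  ∀ (L : List Letter) (z z' : F × F × F), Run L z z' → Run (invW L) z' z

/-- RUC (uses CON). Words are continuous with open domain.  PROOF. Induction on `L` (for `[]` take
`O = V`). -/
def RucStmt : Prop :=
  ∀ (F : Type) [NormedField F], IsLC F →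
  ∀ (L : List Letter) (z z' : F × F × F), Run L z z' → ∀ V : Set (F × F × F), IsOpen V → z' ∈ V →
    ∃ O : Set (F × F × F), IsOpen O ∧ z ∈ O ∧ ∀ z1 ∈ O, OnU z1 → ∃ z2 ∈ V, Run L z1 z2

/-- RUD (uses INV, CON, DEN, APP, RUI). Domains and ranges of words of admissible letters are dense. -/
def RudStmt : Prop :=
  ∀ (F : Type) [NormedField F], IsLC F →
  ∀ L : List Letter, (∀ l ∈ L, l.ok) → ∀ V : Set (F × F × F), IsOpen V → (∃ z ∈ V, OnU z) →
    (∃ z ∈ V, ∃ z', Run L z z') ∧ (∃ z, ∃ z' ∈ V, Run L z z')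

/-- RUB (uses BCH). Base change for words. -/
def RubStmt : Prop :=
  ∀ (K F : Type) [Field K] [Field F] [Gd K] [Gd F] (σ : K →+* F), (2 : F) ≠ 0 →
  ∀ (L : List Letter) (z : K × K × K) (z' : F × F × F), Run L (bc σ z) z' →
    ∃ z1 : K × K × K, Run L z z1 ∧ bc σ z1 = z'

/-- EGN. `SL_2(Z)` is generated by elementary matrices: a property of matrices which holds for
`(1,0,0,1)` and is stable under left multiplication by `(1,n,0,1)` and `(1,0,n,1)` holds for all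
matrices of determinant 1. -/
def EgnStmt : Prop :=
  ∀ p : ℤ → ℤ → ℤ → ℤ → Prop,
    p 1 0 0 1 →
    (∀ a b c e n, p a b c e → p (a + n * c) (b + n * e) c e) →
    (∀ a b c e n, p a b c e → p a b (c + n * a) (e + n * b)) →
    ∀ a b c e : ℤ, a * e - b * c = 1 → p a b c e

section fam
variable {ι : Type} (F : ι → Type) [∀ v, NormedField (F v)] (ϖ : ι → ℤ)

/-- the family of local fields: completions at pairwise different odd primes. -/
def IsFam : Prop := (∀ v, IsLoc (F v) (ϖ v)) ∧ ∀ v w, v ≠ w → ϖ v ≠ ϖ w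

/-- the induction hypothesis. -/
def HS (S : Finset ι) : Prop :=
  ∀ V : ∀ v, Set (F v × F v × F v), (∀ v ∈ S, IsOpen (V v) ∧ ∃ z ∈ V v, OnU z) →
    ∃ L : List Letter, (∀ l ∈ L, l.ok) ∧ ∀ v ∈ S, ∃ u w, RegO u ∧ w ∈ V v ∧ Run L u w

/-- the relation used in the main step: every neighbourhood `B` of `w` is reached from `z` by words
which at the places of `S` move a point of `O v` to a point of `O v` (for arbitrary small open
`O v` around an arbitrary point `u v` of `U`). -/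
def RR (S : Finset ι) (q : ι) (z w : F q × F q × F q) : Prop :=
  OnU z ∧ OnU w ∧ ∀ B : Set (F q × F q × F q), IsOpen B → w ∈ B →
    ∀ (u : ∀ v, F v × F v × F v) (O : ∀ v, Set (F v × F v × F v)),
      (∀ v ∈ S, OnU (u v) ∧ IsOpen (O v) ∧ u v ∈ O v) →
    ∃ L : List Letter, (∀ l ∈ L, l.ok) ∧ (∀ v ∈ S, ∃ u' ∈ O v, ∃ w' ∈ O v, Run L u' w') ∧
      ∃ w' ∈ B, Run L z w'

end fam

/-- SAP (uses NQT, CMP, EGN). Strong approximation with a matrix which is nearly the identity at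
the old places: for `g` of determinant 1 and `N` there is `g' ≡ g mod ϖ_q ^ N` of determinant 1
which moves each `u v` (`v ∈ S`) inside the open set `O v`. -/
def SapStmt : Prop :=
  ∀ (ι : Type) (F : ι → Type) [∀ v, NormedField (F v)]
    (ϖ : ι → ℤ) (S : Finset ι) (ϖq : ℤ), (∀ v ∈ S, IsLoc (F v) (ϖ v)) →
    Prime ϖq → ¬ ϖq ∣ 2 → (∀ v ∈ S, ϖ v ≠ ϖq) → (∀ v ∈ S, ϖ v ≤ ϖq) →
    ∀ (u : ∀ v, F v × F v × F v) (O : ∀ v, Set (F v × F v × F v)),
      (∀ v ∈ S, OnU (u v) ∧ IsOpen (O v) ∧ u v ∈ O v) →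
    ∀ a b c e : ℤ, a * e - b * c = 1 → ∀ N : ℕ,
      ∃ a' b' c' e' : ℤ, a' * e' - b' * c' = 1 ∧ ϖq ^ N ∣ a' - a ∧ ϖq ^ N ∣ b' - b ∧
        ϖq ^ N ∣ c' - c ∧ ϖq ^ N ∣ e' - e ∧
        ∀ v ∈ S, ∃ w ∈ O v, Step (.act a' b' c' e') (u v) w

/-- APX. Every `m1 ≠ 0` of a local field is close to `c/a` with `(a, c)` unimodular, `a, c ≠ 0`. -/
def ApxStmt : Prop :=
  ∀ (F : Type) [NormedField F] (ϖ : ℤ), IsLoc F ϖ →
  ∀ (m1 : F) (ε : ℝ), m1 ≠ 0 → 0 < ε → ∃ a b c e : ℤ, a * e - b * c = 1 ∧ a ≠ 0 ∧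
    c ≠ 0 ∧ ‖am F c / am F a - m1‖ < ε

/-- RTR (uses RUC, RUI, APP). `RR` is transitive.
PROOF. Given `B ∋ z3`, `u`, `O`.  Apply `RR z2 z3` to `B, u, O`: `L2` with `u2 v, w2 v ∈ O v`,
`Run L2 (u2 v) (w2 v)`, `Run L2 z2 z3'`, `z3' ∈ B`.  RUC for `L2`: open `B2 ∋ z2` which `L2` maps into
`B`, and open `O' v ∋ u2 v`, contained in `O v` (intersect), which `L2` maps into `O v`.  Apply
`RR z1 z2` to `B2`, `u2`, `O'`: `L1` with `u1 v, w1 v ∈ O' v`, and `z2' ∈ B2`.  `L = L1 ++ L2`. -/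
def RtrStmt : Prop :=
  ∀ (ι : Type) (F : ι → Type) [∀ v, NormedField (F v)] (ϖ : ι → ℤ) (S : Finset ι) (q : ι),
    (∀ v, IsLoc (F v) (ϖ v)) → ∀ z1 z2 z3 : F q × F q × F q,
    RR F S q z1 z2 → RR F S q z2 z3 → RR F S q z1 z3

/-- RCJ (uses RUC, RUD, RUI, APP). Conjugation by an admissible word `A`.
PROOF. Given `B ∋ w1`, `u`, `O`.  RUC for `A` at `w`: open `B' ∋ w` which `A` maps into `B`.  RUD
(range) at `v ∈ S` for `A` and `O v`: `q1 v`, `u1 v ∈ O v` with `Run A (q1 v) (u1 v)`; RUC: open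
`Q v ∋ q1 v` which `A` maps into `O v`.  Apply `RR z w` to `B'`, `q1`, `Q`: `L`, `q2 v, q3 v ∈ Q v`,
`Run L (q2 v) (q3 v)`, `Run L z w'`, `w' ∈ B'`.  The word is `invW A ++ L ++ A`: `z1 → z → w' → B`
(RUI), and `u2 v := A (q2 v) ∈ O v → q2 v → q3 v → A (q3 v) ∈ O v`.  `invW A` is admissible. -/
def RcjStmt : Prop :=
  ∀ (ι : Type) (F : ι → Type) [∀ v, NormedField (F v)] (ϖ : ι → ℤ) (S : Finset ι) (q : ι),
    (∀ v, IsLoc (F v) (ϖ v)) → ∀ (A : List Letter) (z w z1 w1 : F q × F q × F q),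
    RR F S q z w → Run A z z1 → Run A w w1 → RR F S q z1 w1

/-- RBS (uses SAP, MCN). A matrix acting on a pair of points of the formal group. -/
def RbsStmt : Prop :=
  ∀ (ι : Type) (F : ι → Type) [∀ v, NormedField (F v)] (ϖ : ι → ℤ) (S : Finset ι) (q : ι),
    IsFam F ϖ → q ∉ S → (∀ v ∈ S, ϖ v ≤ ϖ q) →
    ∀ (a b c e : ℤ) (z w : F q × F q × F q), 1 < ‖z.1‖ → 1 < ‖z.2.1‖ →
      Step (.act a b c e) z w → RR F S q z w

/-- RJG (uses APX, MEE, JCO, JNE, RBS, RCJ). From the corner to the curve `Q = O`.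
PROOF. JNE for `x1`, `ρ = r`: radius `r2`, `m1 = ab/((a-b) x1) ≠ 0`.  APX: `h` with
`‖h c / h a - m1‖ < r2/2`.  MEE for `h`, `ρ = r2/2`: `r3`.  JCO for `ρ = min r3 1`: `r'`.  For `z` in
`NearE 0 r'` let `z2 = J z` in `NearE 0 r3`, `z3 = h z2` in `NearE (c/a) (r2/2) ⊆ NearE m1 r2`,
`w = J z3` in `NearG x1 r`.  RBS: `RR z2 z3`; RCJ with `A = [jj]`, `Run [jj] z2 z` (INV),
`Run [jj] z3 w`: `RR z w`. -/
def RjgStmt : Prop :=
  ∀ (ι : Type) (F : ι → Type) [∀ v, NormedField (F v)] (ϖ : ι → ℤ) (S : Finset ι) (q : ι),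
    IsFam F ϖ → q ∉ S → (∀ v ∈ S, ϖ v ≤ ϖ q) →
    ∀ (x1 : F q) (r : ℝ), 0 < r → GoodX x1 → ∃ r' : ℝ, 0 < r' ∧ ∀ z : F q × F q × F q,
      NearE 0 r' z → ∃ w, NearG x1 r w ∧ RR F S q z w

/-- RTG (uses RJG, TNG, SWE, RBS, RCJ, RTR). Translates of the corner.
For every translation word `t` and every `ρ` there is `r'` such that from every `z` near the corner
one reaches `w` with `Run (t ++ [sw]) y w` for a point `y` near the corner (`w = (Q + T, P)` for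
`y = (P, Q)`).
PROOF. `t = []`: `w` is the swap of `y`; by SWE there are a matrix `h0` and `r'` such that
`w := h0 z` has `y := swf w` in `NearE 0 ρ`, `Run [sw] y w`; RBS.
`t = [l]`: SWE for `ρ`: `h0`, `r0`.  TNG for `l` and `min r0 1`: `x1, r1`.  RJG for `x1, r1`: `r'`.
For `z` in `NearE 0 r'` get `w1` in `NearG x1 r1`, `RR z w1`, and `y1` in `NearE 0 r0` with
`Run [sw, l, sw] w1 y1`; so `Run [sw, l, sw] y1 w1` (INV for the three letters).  `h0 y1 =: y2`,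
`RR y1 y2` (RBS), `y := swf y2` in `NearE 0 ρ`, `Run [sw] y2 y`; the letters `l`, `sw` are defined
everywhere (DNS), `w := swf (l y)`.  RCJ with `A = [sw, l, sw]`: `RR w1 w`, and RTR. -/
def RtgStmt : Prop :=
  ∀ (ι : Type) (F : ι → Type) [∀ v, NormedField (F v)] (ϖ : ι → ℤ) (S : Finset ι) (q : ι),
    IsFam F ϖ → q ∉ S → (∀ v ∈ S, ϖ v ≤ ϖ q) →
    ∀ (t : List Letter) (ρ : ℝ), TrW t → 0 < ρ → ∃ r' : ℝ, 0 < r' ∧ ∀ z : F q × F q × F q,
      NearE 0 r' z → ∃ y w, NearE 0 ρ y ∧ Run (t ++ [.sw]) y w ∧ RR F S q z w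

/-- MST (uses NEX, NEO, RCG, RJG, RTG, RBS, RCJ, RTR, RUC, RUD, RUI). The main step, pointwise form.
PROOF. RCG for `Vq`: `t`, `g = (a b c e)`, `x1`, `r`.  RJG: `r1`.  RTG for `t` and `ρ = r1`: `r2 ≤ 1`.
Choose `z` in `NearE 0 r2` such that `act g` is defined at `z` (NEX, NEO, RUD or DEN).  RTG: `y, w`
with `y` in `NearE 0 r1`, `Run (t ++ [sw]) y w`, `RR z w`.  RJG: `y1` in `NearG x1 r`, `RR y y1`.
RCG: `Run (t ++ [sw, act g]) y1 v`, `v ∈ Vq`; let `Run (t ++ [sw]) y1 w1`, `Run [act g] w1 v`.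
RCJ: `RR w w1`; RTR: `RR z w1`.  RBS: `RR z (g z)`.  RCJ with `A = [act g]`: `RR (g z) v`.  RTR:
`RR z v`.  `z` is in `RegO` since `r2 ≤ 1`. -/
def MstStmt : Prop :=
  ∀ (ι : Type) (F : ι → Type) [∀ v, NormedField (F v)] (ϖ : ι → ℤ) (S : Finset ι) (q : ι),
    IsFam F ϖ → q ∉ S → (∀ v ∈ S, ϖ v ≤ ϖ q) →
    ∀ (Vq : Set (F q × F q × F q)), IsOpen Vq → (∃ z ∈ Vq, OnU z) →
    ∃ z w : F q × F q × F q, RegO z ∧ w ∈ Vq ∧ RR F S q z w

/-- IND (uses MST, RUC, RUD, APP, RGO). `H(S)` for all finite `S`.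
PROOF. Induction on the cardinality of `S` (`L = []` for `S = ∅`).  Take `q ∈ S` with `ϖ q` maximal,
`S' = S.erase q`.  By induction there are `L0`, `u v`, `w v ∈ V v`, `v ∈ S'`.  RUD (range): `Vq`
contains `z'` with `Run L0 z z'`; RUC: an open `W ∋ z` with `L0 : W → Vq`.  RUC, RGO at `v ∈ S'`:
open `O v ∋ u v` with `L0 : O v → V v` and `RegO` on the points of `O v` on `U`.  MST for `W` and
`RR` for `B = W`, `u`, `O` give `L1`; the word `L1 ++ L0` does it (APP). -/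
def IndStmt : Prop :=
  ∀ (ι : Type) (F : ι → Type) [∀ v, NormedField (F v)] (ϖ : ι → ℤ),
    IsFam F ϖ → ∀ S : Finset ι, HS F S

/-- CRT. Chinese remainder theorem for pairwise different positive primes of `Z`. -/
def CrtStmt : Prop :=
  ∀ (ι : Type) (ϖ : ι → ℤ) (S : Finset ι) (N : ι → ℕ) (k : ι → ℤ),
    (∀ v ∈ S, Prime (ϖ v) ∧ 0 < ϖ v) → (∀ v ∈ S, ∀ w ∈ S, v ≠ w → ϖ v ≠ ϖ w) →
    ∃ k0 : ℤ, ∀ v ∈ S, ϖ v ^ N v ∣ k0 - k v

/-- FIN (uses IND, APO, RPB, RXD, CRT, RUC, RUD, RUB, BCK, FUN, APP). Weak approximation from weak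
approximation for the line.
PROOF. IND: `L0, u v, w v`.  RUD (range) and RUC over the reals: open `W` with a point on `U` and
`L0 : W → V∞`.  `b = ∏ ϖ v` (odd), RXD for `W`, `b`: `L1`.  At `v ∈ S`: `u' v` in `RegO` with
`Run L1 (u' v) (u v)` (RPB, or `u' = u` if `L1 = []`).  RUC for `L1 ++ L0` at `u' v`: open
`O v ∋ u' v` with `L1 ++ L0 : O v → V v`.  APO at `u' v`: `k v, N v, T v`.  CRT: `k0`;
`m = ∏ ϖ v ^ N v` (odd).  RXD: `k, T∞`.  The hypothesis gives `τ : K`.  The point `ck k τ` has base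
changes `ck k (σ τ)` (BCK) in `O v`, and over the reals `Run L1 (ck k τ) w`, `w ∈ W`; RUB gives
points over `K`, which agree by FUN over `K`. -/
def FinStmt : Prop :=
  ∀ (ι : Type) (F : ι → Type) [∀ v, NormedField (F v)] (ϖ : ι → ℤ) (K : Type) [Field K] [Gd K]
    (σ : ∀ v, K →+* F v) (σR : K →+* ℝ),
    IsFam F ϖ → ∀ S : Finset ι,
    (∀ (T : ∀ v, Set (F v)) (TR : Set ℝ), (∀ v ∈ S, IsOpen (T v) ∧ (T v).Nonempty) → IsOpen TR →
      TR.Nonempty → ∃ τ : K, (∀ v ∈ S, σ v τ ∈ T v) ∧ σR τ ∈ TR) →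
    ∀ (V : ∀ v, Set (F v × F v × F v)) (VR : Set (ℝ × ℝ × ℝ)),
      (∀ v ∈ S, IsOpen (V v) ∧ ∃ z ∈ V v, OnU z) → IsOpen VR → (∃ z ∈ VR, OnU z) →
      ∃ z : K × K × K, OnU z ∧ (∀ v ∈ S, bc (σ v) z ∈ V v) ∧ bc σR z ∈ VR

end Pool.Agent.WAQ
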