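import Pool.Agent.WAQ.StmtsL
import Pool.Agent.WAQ.Exports

/-!
# WAQ, part L, second file: internal rows for the exports NQT, RCG, MEE, MCN, SWE, TNG, RPB, APO

The rows use the statements of StmtsL (`Lev`, `nm`, `qn`, `ZlvStmt`, ..), of StmtsT (`GoodF`,
`GdfStmt`, `KucStmt`, `LocStmt`, `DifStmt`, `InfStmt`) and `FraStmt`.  G = `{P | Big 1 P}`.
Useful (Alg.lean, namespace `Pool.Agent.WAQ.G`): `actf_kum`, `swf_kum`, `t0f_kum`, `tpf_kum`,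
`tmf_kum`, `onU_swf`, `onU_kum`, `kum_neg`, `yn_ne_of_onU`, `mz_kum`, `one_sm`, `zero_sm`, `add_sm`,
`sm_add`, `mul_sm`.  `IsLoc.gd`, `IsLoc.two_ne`, `IsLoc.charZero` of Defs.
A step `Step (.act a b c e) z z'` is: `OnU z`, `OnU z'`, `a * e - b * c = 1`, `z' = actf a b c e z`.
-/

namespace Pool.Agent.WAQ

open Classical

variable [Par]

/-- CKF (port of WAP row CKF; uses FRA).  Proof.  `τ = cX P / d`, `z = kum d P P = (τ, τ, cub τ)` (the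
equation of the curve) is on U.  `frP z = mkPt (cub τ) (τ * cub τ) (cub τ ^ 2)` by definition, so
`actf 1 0 k 0 z = kum (cub τ) (sm 1 (frP z) + sm 0 _) (sm k (frP z) + sm 0 _) = ck k τ`; by FRA
`actf 1 0 k 0 (kum d P P) = kum d P (sm k P)`. -/
def CkfStmt : Prop := ∀ (F : Type) [Field F] [Gd F], (2 : F) ≠ 0 →
  ∀ (d : F), d ≠ 0 → ∀ (P : Pt d), cY P ≠ 0 → ∀ k : ℤ,
    ck k (cX P / d) = kum d P (sm k P)

/-- NGL (port of WAP row NGL; uses DIF, GDF). Local coordinates near `Q = O`.  Proof.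
`P1 = (X1, Y1)`, `x1 = X1/d`, `Y1^2 = d^3 cub x1`.  `z = (x, t, y)` on U, `x` near `x1`:
`d^3 cub x / Y1^2` is near 1, let `s` be its square root near 1 (GoodF), `Y = Y1 s`, `P = (d x, Y)` is a
point near P1, so `P - P1` is in Big N (DIF).  `Q = (d t, d^3 y / Y)` is a point since
`y^2 = cub x * cub t`, `|t| > 1/r` large, `kum d P Q = z`. -/
def NglStmt : Prop := ∀ (F : Type) [NormedField F] (ϖ : ℤ), IsLoc F ϖ →
  ∀ (d : F), d ≠ 0 → ∀ (P1 : Pt d), cY P1 ≠ 0 → ∀ N : ℝ, ∃ r : ℝ, 0 < r ∧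
    ∀ z : F × F × F, NearG (cX P1 / d) r z → ∃ p q : Pt d, Big N p ∧ Big N q ∧ z = kum d (P1 + p) q

/-- TWD. Every 2-torsion point is the translation by a word.  Proof.  `T = 0`: `t = []`, `Run [] z z` is
`OnU z`.  `T = tor d 0`: `t = [.t0]`, `t0f_kum`, and so on (`0 * d`: `tor d e` is the point with
normalized coordinates `(e, 0)`). -/
def TwdStmt : Prop := ∀ (F : Type) [Field F] [Gd F], (2 : F) ≠ 0 →
  ∀ (d : F), d ≠ 0 → ∀ (T : Pt d), IsT T → ∃ t : List Letter, TrW t ∧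
    ∀ P Q : Pt d, OnU (kum d P Q) → OnU (kum d P (Q + T)) ∧
      Run t (kum d P Q) (kum d P (Q + T))

/-- MCN (uses FRA, KUC, GDF, NRM, LVB, ZLV).  Proof.  NRM: `z = kum d P Q`, P, Q in G since
`z.1 = cX P / d`.  FRA: `z' = kum d P0 Q0`, `P0 = aP + bQ`, `Q0 = cP + eQ`.  KUC at (P0, Q0) for V: N1;
LVB: ρ with Lev ρ ⊆ Big N1; ZLV (7): k with `sm n P`, `sm n Q` in Lev ρ for all n divisible by ϖ^k.  For
g' ≡ g mod ϖ^k: `a'P + b'Q = P0 + ((a'-a)P + (b'-b)Q)`, in P0 + Lev ρ (ZLV (1)), the same for Q0, so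
`z1 = kum d (a'P + b'Q) (c'P + e'Q)` is in V and on U, `z1 = actf a' b' c' e' z` (FRA). -/
def McnRow : Prop := McnStmt

/-- MEE (port of WAP row MEE, simpler; uses FRA, NRM, MZZ, LIN, ZLV).  Proof.  η > 0 with η < |a|, |c|,
η < ρ |a|^2, η ≤ 1, ρ (`|a|` = norm of `am F a`, not 0); r small (r^2 < η, r < η, r ≤ 1, r < 1/2).
z = kum d P Q (NRM), |x(P)|, |x(Q)| > 1/r ≥ 1, so P, Q are in G; MZZ: `|z(Q)/z(P)| = |m| < r`,
`|d| |z(P)|^2 = 1/|x(P)| < r`.  LIN (`|z(Q)| ≤ |z(P)|`): z(aP + bQ) = z(P)(a + δ1), |δ1| < η; z(cP + eQ) =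
z(P)(c + δ2), |δ2| < η.  So |z(P')| = |a| |z(P)| ≠ 0, |z(Q')| = |c| |z(P)| ≠ 0, P', Q' in G;
z' = kum d P' Q' is on U (MZZ) and `actf a b c e z = z'` (FRA).  |x(P')| = |x(P)|/|a|^2 ≥ |x(P)| > 1/ρ,
|x(Q')| the same.  |mz z' - z(Q')/z(P')| ≤ |c/a| |d| max(|z(P')|, |z(Q')|)^2 ≤ |c/a| r (MZZ), and
`(c + δ2)/(a + δ1) - c/a = (a δ2 - c δ1)/(a (a + δ1))` has norm < η/|a|^2. -/
def MeeRow : Prop := MeeStmt

/-- SWE (uses MEE).  Proof.  Matrix (ϖ^n, -1, 1, 0), `1/|ϖ^n| > 1/ρ + 1`, MEE with min ρ 1: r.  For z in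
NearE 0 r, `z'` is in NearE (1/ϖ^n) (min ρ 1), so |mz z'| > 1/ρ.  On U `mz z' * mz (swf z') = 1`
(`mz z = y/(x(t-a)(t-b))`, `y^2 = f(x) f(t)`), so |mz (swf z')| < ρ; OnU (swf z'). -/
def SweRow : Prop := SweStmt

/-- TNG.  Proof.  `[sw, t0, sw] z = (ab/x, t, -ab y/x^2)`, `[sw, tp, sw] z = (a(x-b)/(x-a), t, ..)`,
`[sw, tm, sw] z = (b(x-a)/(x-b), t, ..)` (the letters are defined on all of U: `t0f_kum` etc., or
directly from the formulas).  Root e = 0, ea, eb: x1 = e + ϖ^n with n large; GoodX: |x1 - e| = |ϖ^n| < 1, the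
differences of the roots are units, and (ea - eb) x = ea eb has only one solution, so n or n + 1 is
allowed.  For |x - x1| < |ϖ^n|: |x - e| = |ϖ^n|, |x'| = |ϖ^n|⁻¹ =: M > 1/ρ (numerators are units, also for
e = 0).  `mz z' ^ 2 = (x'-a)(x'-b) t/(x'(t-a)(t-b))` (from y'^2 = f(x') f(t)), norm M/|t| < M r ≤ ρ^2
for r small; |t| > 1/r > 1/ρ, 1. -/
def TngRow : Prop := TngStmt

/-- RPB (uses FRA, NRM, MZZ, LIN, ZLV).  Proof.  u = kum d P Q (NRM), P, Q in G, not 0,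
|z(Q)| ≤ |z(P)| (MZZ (2): |mz| = |z(Q)/z(P)|).  P' = P - bQ = sm 1 P + sm (-b) Q.  LIN: z(P') = z(P) - b z(Q) + err,
|err| ≤ |d|^2 |z(P)|^5 ≤ q^2 |z(P)| (ZLV (8)), |b z(Q)| ≤ q |z(P)|, so |z(P')| = |z(P)| ≠ 0 and P' ≠ 0.
u' = kum d P' Q: on U, RegO (MZZ; Big 1 P', Big 1 Q give the norms of the coordinates > 1), and
`actf 1 b 0 1 u' = kum d (P' + bQ) Q = u` (FRA). -/
def RpbRow : Prop := RpbStmt

/-- NQT (port of WAP row NQT, without the place 2; uses GDF, FRA, KUC, NRM, KIL, LVB).  Proof.  NRM: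
`z = kum d P Q`.  KUC at (P, Q): N1 for O.  LVB: ρ with Lev ρ ⊆ Big N1.  KIL (l = ϖq; ϖ, ϖq positive
primes, ϖ ≠ ϖq, so not associated; nm ϖ ≤ nm ϖq) for P and Q: e = the product of the two numbers c.
Then `actf 1 n 0 1 z = kum d (P + nQ) Q` and `actf 1 0 n 1 z = kum d P (nP + Q)` (FRA) are in O and on U
(KUC with q = 0 resp. p = 0; Big N 0 holds). -/
def NqtRow : Prop := NqtStmt

/-- RCG (port of WAP row RCG with a 2-torsion point; uses GDF, FRA, KUC, NRM, UNI, ZLV, LVB, INF, NGL,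
ITS, TWD).  Proof.  NRM: `z0 = kum d P0 Q0` in V.  KUC: N for V.  LVB: ρ with Lev ρ ⊆ Big N.  UNI for
(P0, Q0, ρ): a e - b c = 1, c P0 + e Q0 = T + Q1, Q1 in Lev ρ, T 2-torsion.  P1 = -a P0 - b Q0, so
P0 = -b (T + Q1) - e P1 and Q0 = a (T + Q1) + c P1.  Choose t in Lev ρ (INF, LVB (2)) such that
P2 = P1 + t has cY P2 ≠ 0 and GoodX (cX P2 / d): only finitely many t are forbidden (for every value of
cX there are at most two points, `eq_or_neg_of_xn`).  x1 = cX P2 / d.  N'' with Big N'' ⊆ Lev ρ (LVB), r from NGL for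
(P2, N'').  TWD: the word `t` of T.  The matrix is (-b, -e; a, c), determinant -bc + ea = 1.  For z in
NearG x1 r: z = kum d (P2 + p) q with p, q in Lev ρ; TWD: kum d (P2 + p) (q + T); sw:
kum d (q + T) (P2 + p) (`swf_kum`, `onU_swf`); matrix (FRA):
`kum d (-b (q + T) - e (P2 + p)) (a (q + T) + c (P2 + p))`, = kum d (P0 + p') (Q0 + q') with
p' = -b (q - Q1) - e (t + p), q' = a (q - Q1) + c (t + p) in Lev ρ (ZLV (1), (2)): in V and on U by KUC. -/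
def RcgRow : Prop := RcgStmt

/-- APG (port of WAP row APG; uses GDF, CKF, KUC, LOC, LVB, ZLV). Approximation by the curves ck. -/
def ApgStmt : Prop := ∀ (F : Type) [NormedField F] (ϖ : ℤ),
  IsLoc F ϖ → ∀ (d : F), d ≠ 0 → ∀ (P0 Q0 : Pt d), OnU (kum d P0 Q0) →
    (∀ ρ : ℝ, 0 < ρ → ∃ (k0 : ℤ) (N : ℕ), ∀ k : ℤ, ϖ ^ N ∣ k - k0 →
      Lev ρ (sm k P0 - Q0)) →
    Appr F ϖ (kum d P0 Q0)

/-- APO (port of WAP row APO; uses NRM, MZZ, ZLV, DGN, APG). -/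
def ApoRow : Prop := ApoStmt

end Pool.Agent.WAQ
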