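import Pool.Agent.WAQ.Alg

/-!
# WAQ: the real place (statements with complete proofs); owner helper95

The field is `ℝ`; `d ≠ 0` is a real number of any sign; `e1, e2, e3 = 0, d * ea ℝ, d * eb ℝ` are the
roots of `W d : Y ^ 2 = X * (X - d * ea ℝ) * (X - d * eb ℝ)`.
`E^d(ℝ)` has two components: the identity component `X ≥ rt3 d` (with the origin) and the egg, on which
`X` is between the two smaller roots.  No uniformisation is used, no scaling to `d = 1, -1`.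

Every row: file `Pool/Agent/HelperNN_WAQ/XXX.lean`, `import Pool.Agent.WAQ.StmtsR` (and `Pool.Agent.WAQ.StmtsT`), namespace
`Pool.Agent.WAQ.HNN`, `open Pool.Agent.WAQ Pool.Agent.WAQ.R`, theorem `xxx [Par] (h1 : UseStmt) .. : XxxStmt`.
IMPORTANT in every file over `ℝ`, before any `P + Q`:
`attribute [local instance 10000] Pool.Agent.WAQ.R.decR` (then `P + Q` over `ℝ` has the same instance as in the general
files; do not make `Classical.propDecidable` itself an instance, this breaks `omega`).  Algebra: `Pool/Agent/WAQ/Alg.lean` (namespace `Pool.Agent.WAQ.G`: `IsP`, `IsP.add`, `IsP.dbl`, `isP_self`, `isP_mk`,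
`eq_or_neg_of_xn`, `IsP.add_tor0/1/m`, `sm_add`, `add_sm`, `mul_sm`, `two_sm`, ..).
-/

set_option autoImplicit false

namespace Pool.Agent.WAQ.R

open Pool.Agent.WAQ

/-- the instance of the general files, for `ℝ` -/
noncomputable abbrev decR : DecidableEq ℝ := fun a b => Classical.propDecidable (a = b)

attribute [local instance 10000] decR

variable [Par]

/-- the largest root of `X * (X - d * a) * (X - d * b)` -/
noncomputable def rt3 (d : ℝ) : ℝ := max 0 (max (d * ea ℝ) (d * eb ℝ))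

/-- the identity component of `E^d(ℝ)` -/
def IdC {d : ℝ} (P : Pt d) : Prop := P = 0 ∨ rt3 d ≤ cX P

/-- `P` is not a torsion point -/
def NTor {d : ℝ} (P : Pt d) : Prop := ∀ a : ℤ, a ≠ 0 → sm a P ≠ 0

/-- **RHV** (medium; uses nothing).  Halving in the identity component converges to the origin.
PROOF.  `P = 0`: `m = 1`, `Q = 0`.  ONE STEP: `P = (X0, Y0)`, `X0 ≥ rt3 d`.  Let `si = √(X0 - ei) ≥ 0` (`ei` = the three roots, all
`≤ X0`), `X1 = X0 + s1 s2 + s1 s3 + s2 s3`, `Y1 = (s1 + s2)(s1 + s3)(s2 + s3)`.  Then `X1 - e1 = (s1 + s2)(s1 + s3)` etc., so `(X1, Y1)` is on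
the curve, and `Y1 ≠ 0` since at most one `si` is `0` (the roots are different).  Tangent at `(X1, Y1)`:
`f'(X1) = 2 Y1 (s1 + s2 + s3)`, slope `l = s1 + s2 + s3`, so `X(2 (X1, Y1)) = l ^ 2 + e1 + e2 + e3 - 2 X1 = X0`.  (In normalized coordinates, `IsP.dbl` of
Alg.lean: `(x1 ^ 2 - a b) ^ 2 / (4 cub x1) = x0`; or use `W_addX` and `slope_of_Y_ne`.)  Hence `2 (X1, Y1) = ± P` (`eq_or_neg_of_xn`), and for a
sign `2 (X1, ± Y1) = P`.  Moreover `X1 ≥ X0 + c`, `c = s1 s2 + s1 s3 + s2 s3` at `X0 = rt3 d`, `c > 0` (`√` is monotone, two of the `si` are positive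
there).  ITERATION: `Q_0 = P`, `2 Q_(m+1) = Q_m`, `cX Q_m ≥ rt3 d + m c`, so `|cX Q_m / d| > N` for some `m ≥ 1`, and `sm (2 ^ m) Q_m = P`
(`mul_sm`). -/
def RhvStmt : Prop := ∀ d : ℝ, d ≠ 0 → ∀ P : Pt d, IdC P → ∀ N : ℝ,
  ∃ (m : ℕ) (Q : Pt d), 1 ≤ m ∧ sm (2 ^ m) Q = P ∧ Big N Q

/-- **RCO** (medium; uses RHV).  The two components.
PROOF.  (1) `P = 0` or `cY P = 0`: `2 P = 0`.  Otherwise `X(2P) - e1 = ((X - e1) ^ 2 - (e1 - e2)(e1 - e3)) ^ 2 / (4 Y ^ 2) ≥ 0` for each of the three roots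
(`IsP.dbl`: `xn (2P) = (x ^ 2 - a b) ^ 2 / (4 cub x)`, and `cub x = d y ^ 2`; `xn (2P) - a = (..) ^ 2 / (4 d y ^ 2)`, multiply by `d`).
(2) RHV: `P = 2 A`, `Q = 2 B` (`A = sm (2 ^ (m-1)) ..`), `P + Q = 2 (A + B)`, (1).  (3) `P = (X, Y)` with `X < rt3 d`; `Y ^ 2 ≥ 0` forces
`e1 ≤ X ≤ e2` where `e1 < e2 < e3` are the roots in order.  Let `T = (e2, 0)`.  If `X = e2` then `P = T`, `P + T = 0`.  Otherwise
`X(P + T) = e2 + (e2 - e1)(e2 - e3)/(X - e2) = e2 + (e2 - e1)(e3 - e2)/(e2 - X) ≥ e2 + (e3 - e2) = e3`.  So `P + T` and `Q + T` are in the identity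
component, `P + Q = (P + T) + (Q + T)` and (2).  (The middle root is `e d` with `e` one of `0, ea ℝ, eb ℝ`: three cases, `tor d e`, `add_tor0/1/m`; better
first prove the formula for a general root.)  (4) `X ≥ ` smallest root always, so `|X / d| > N` with `N` large forces `X > rt3 d`.
(5) from (1): `a = 2 b`: `sm a P = sm 2 (sm b P)`.  (6) `-P` has the same `cX`. -/
def RcoStmt : Prop := ∀ d : ℝ, d ≠ 0 →
  (∀ P : Pt d, IdC (sm 2 P)) ∧
  (∀ P Q : Pt d, IdC P → IdC Q → IdC (P + Q)) ∧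
  (∀ P Q : Pt d, ¬ IdC P → ¬ IdC Q → IdC (P + Q)) ∧
  (∃ N : ℝ, ∀ p : Pt d, Big N p → IdC p) ∧
  (∀ (P : Pt d) (a : ℤ), Even a → IdC (sm a P)) ∧
  (∀ P : Pt d, IdC P → IdC (-P))

/-- **RSM** (medium-strong; uses ADN, DIF and `GoodF ℝ`).  An infinite subgroup contains small points.
PROOF.  Only finitely many points have `cY P = 0` (the origin and the three roots), so there is an injective sequence `P_i` (`i` in `ℕ`) in `S`
with `cY P_i ≠ 0` (`Set.Infinite.natEmbedding` of the infinite set `S` minus these).  If `Big N (P_i)` for some `i`: done.  Otherwise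
`|cX P_i / d| ≤ N`, so the points `(cX P_i, cY P_i)` of `ℝ × ℝ` are bounded (`cY ^ 2 = f(cX)`), and a subsequence converges to `(X', Y')`
(`tendsto_subseq_of_bounded`), `Y' ^ 2 = X' (X' - d a)(X' - d b)` by continuity.
(a) `Y' ≠ 0`: `P' = (X', Y')` is a point (`W_nonsingular`), `N'` from ADN for `N`, DIF at `P'` for `N'`: `ε`.  Take `i ≠ j` with both points `ε`-close to
`(X', Y')`; `P_i - P_j = (P_i - P') + -(P_j - P')` is in `Big N` (`Big` is stable under `-`), in `S` and not `0`.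
(b) `Y' = 0`: `X'` is a simple root, `f'(X') ≠ 0`.  `P_i + P_i ∈ S` has `cX = (f'(X_i) / (2 Y_i)) ^ 2 + d (a + b) - 2 X_i`, which tends to infinity as
`Y_i → 0`, `Y_i ≠ 0`, and `P_i + P_i ≠ 0` since `Y_i ≠ 0`.  (In normalized coordinates `xn (2P) = (x ^ 2 - a b) ^ 2 / (4 cub x)`, `IsP.dbl`; at a root `x'` of `cub`
`x' ^ 2 ≠ a b`.)  `P + P = P - (0 - P)`, `0 = P - P`. -/
def RsmStmt : Prop := ∀ d : ℝ, d ≠ 0 → ∀ S : Set (Pt d), S.Infinite →
  (∀ P ∈ S, ∀ Q ∈ S, P - Q ∈ S) → ∀ N : ℝ, ∃ P ∈ S, P ≠ 0 ∧ Big N P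

/-- **RTF** (easy; uses RSM, ZSM and `GoodF ℝ`).  Finitely many `a`-torsion points.
PROOF.  Otherwise RSM for `{P | sm a P = 0}` and the `N` of ZSM for `a`, `ε = 1/2` (also `N ≥ 2 (|a'| + |b'|) + 1`, `a', b'` the parameters, so that `cY P ≠ 0`, `cX P ≠ 0`)
gives `P ≠ 0`, `|0 - a cz P| ≤ 1/2 |cz P|`, so `cz P = 0`, `cX P = 0` or `cY P = 0`, contradiction to `Big N P`. -/
def RtfStmt : Prop := ∀ d : ℝ, d ≠ 0 → ∀ a : ℤ, a ≠ 0 → {P : Pt d | sm a P = 0}.Finite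

/-- **RNT** (easy-medium; uses RTF).  There are points near the origin without torsion.
PROOF.  The set `Tor` of all torsion points is a countable union of finite sets, so countable.  For `X > M = max (rt3 d) (|N| * |d|)` the point
`(X, √(X (X - d a)(X - d b)))` is in `Big N`, and `X ↦` point is injective on `Set.Ioi M`, which is not countable (`Cardinal.mk_Ioi_real`, or
`Set.Ioi` contains an interval). -/
def RntStmt : Prop := ∀ d : ℝ, d ≠ 0 → ∀ N : ℝ, ∃ p : Pt d, Big N p ∧ NTor p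

/-- **RGR** (medium-strong; uses ADN, ZAD and `GoodF ℝ`).  Greedy algorithm: the multiples of a small point are a net near the origin.
PROOF.  Write `z(P) = cz P`, `a, b` for the parameters.  Let `A = 20 (|a| + |b|) + 1`.  (1) For `P ≠ 0` with `|X/d| > A`:
`X z ^ 2 = 1 / ((1 - d a / X)(1 - d b / X))` (curve equation) is in `[4/5, 5/4]`, in particular `X > 0`.
(2) ZAD with `ε = 1/20`: `N1`; ADN for `A`: `N2`; `N3 = max A (max N1 N2) > 0`; choose `ζ > 0` with `5 ζ ^ 2 * |d| * N3 < 4/5`, so: `P` in `Big A`,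
`|z(P)| ≤ 2.2 ζ` imply `Big N3 P` (`P = 0` or `|X| ≥ (4/5) / z ^ 2`), hence for two such points `P, Q`: `P + Q` is in `Big A` and
`|z(P + Q) - z(P) - z(Q)| ≤ max |z(P)| |z(Q)| / 20`.  Choose `N0 ≥ A` such that `Big N0 P` implies `|z(P)| ≤ ζ` (`z ^ 2 ≤ (5/4) / X`).
(3) DOUBLING: `e_j = sm (2 ^ j) e`; as long as `|z(e_j)| ≤ ζ`, `e_j` in `Big A`: `1.95 |z(e_j)| ≤ |z(e_(j+1))| ≤ 2.05 |z(e_j)|` and `e_(j+1)` is in `Big A`.
(4) CLAIM: for all `n` and all `Q` in `Big A` with `|z(Q)| ≤ ζ`, `|z(Q)| ≤ |z(e)| (5/4) ^ n` there is `a` with `Q - sm a e` in `Big A` and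
`|z(Q - sm a e)| ≤ |z(e)|`.  Induction: if `|z(Q)| ≤ |z(e)|` then `a = 0`.  Otherwise take `j` with `|z(e_j)| ≤ |z(Q)| < |z(e_(j+1))| ≤ 2.05 |z(e_j)|`
(`Nat.find`; the `|z(e_j)|` grow by the factor 1.95 as long as they are `≤ |z(Q)| ≤ ζ`) and the sign `c` for which `c z(e_j)`, `z(Q)` have the same
sign: for `Q' = Q - c e_j`: `|z(Q')| ≤ |z(Q)| - |z(e_j)| + |z(Q)| / 20 ≤ (1 - 1/2.05 + 1/20) |z(Q)| ≤ (4/5) |z(Q)|`, `Q'` in `Big A`; induction.
(5) END: `R = Q - sm a e` is `0`, or `X(R) ≥ (4/5) / z(R) ^ 2 ≥ (4/5) / z(e) ^ 2 ≥ (16/25) X(e) > X(e) / 2`. -/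
def RgrStmt : Prop := ∀ d : ℝ, d ≠ 0 → ∃ N0 : ℝ, ∀ e Q : Pt d, e ≠ 0 → Big N0 e → Big N0 Q →
  ∃ a : ℤ, Big (‖cX e / d‖ / 2) (Q - sm a e)

/-- **RGE** (easy-medium; uses RGR, RHV, RSM, SMN and `GoodF ℝ`).  The multiples of a point without torsion are dense in the
identity component.
PROOF.  `N0` from RGR.  RHV: `m, Q` with `sm (2 ^ m) Q = T`, `Big N0 Q`.  SMN for `2 ^ m` and `N`: `N'`.  RSM for `S = {sm b P}` (infinite because
`b ↦ sm b P` is injective): `e = sm b P ≠ 0` in `Big (max N0 (2 |N'|))`.  RGR: `a` with `Q - sm a e` in `Big (‖cX e / d‖ / 2)`, contained in `Big N'`.  So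
`sm (2 ^ m) (Q - sm a e) = T - sm (2 ^ m * a * b) P` is in `Big N`. -/
def RgeStmt : Prop := ∀ d : ℝ, d ≠ 0 → ∀ P : Pt d, NTor P → ∀ T : Pt d, IdC T → ∀ N : ℝ,
  ∃ n : ℤ, Big N (T - sm n P)

/-- **RCK** (easy-medium; uses RCO, RGE, RNT).  Points `(P, k P)` near `(P0, Q0)`.
PROOF.  We may enlarge `N` such that `Big N p` implies `IdC p` (RCO (4)).  RNT: `p` in `Big N` without torsion.  `P = P0` if `P0` has no torsion, otherwise
`P = P0 + p` (if `sm a P0 = 0` and `sm c (P0 + p) = 0` then `sm (a c) p = 0`).  `IdC P ↔ IdC P0` by RCO (2), (6).  CHOICE of `k1`: if `IdC P0` (so `IdC Q0`)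
`k1 = k0`, `IdC (sm k1 P)` (multiples: `k1` even by (5), `k1` odd: `sm k1 P = P + sm (k1 - 1) P`).  If not `IdC P0`: `k1 = k0` or `k1 = k0 + m` such that
`k1` is even if `IdC Q0` and odd otherwise; then `sm k1 P` is in the identity component iff `Q0` is.  In all cases `IdC (Q0 - sm k1 P)` by RCO.
RGE for the point `sm m P` (no torsion) and `T = Q0 - sm k1 P`: `n` with `T - sm n (sm m P) = Q0 - sm (k1 + n m) P` in `Big N`; `k = k1 + n m`, change the sign. -/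
def RckStmt : Prop := ∀ d : ℝ, d ≠ 0 → ∀ P0 Q0 : Pt d, (IdC P0 → IdC Q0) → ∀ N : ℝ,
  ∀ k0 m : ℤ, Odd m → ∃ (k : ℤ) (P : Pt d), m ∣ k - k0 ∧ Big N (P - P0) ∧ Big N (sm k P - Q0)

end Pool.Agent.WAQ.R
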