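import Pool.Agent.WAQ.StmtsR
import Pool.Agent.WAQ.Exports

/-!
# WAQ: the real place, second file (rows RFI, RXD)
-/

set_option autoImplicit false

namespace Pool.Agent.WAQ.R

open Pool.Agent.WAQ

attribute [local instance 10000] decR

variable [Par]

/-- **RFI** (medium; uses RCK, KUC, CON, FRA, FRE and `GoodF ℝ`).  Near a point of good type there are points `ck k τ`.
PROOF.  KUC at `(P0, Q0)`: `N` for `V`.  RCK: `k, P`.  `kum d P (sm k P)` is in `V` and on `U`, `τ0 = cX P / d`, and it is `ck k τ0` (as in row CKF: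
`kum d P P = (τ0, τ0, cub τ0)` is on `U`, `frP` of it is `mkPt (cub τ0) (τ0 * cub τ0) (cub τ0 ^ 2)`, FRA for the matrix `(1, 0; k, 0)`..).  Then as in row CXD of
WAP: `Step (.act 1 0 (k - 1) 1) (ck 1 τ) (ck k τ)` for `cub τ ≠ 0`, `ck 1 τ = (τ, τ, cub τ)`; CON: an open `O` with `ck 1 τ0 ∈ O`, which the letter maps into `V`;
`T = {τ | cub τ ≠ 0 ∧ (τ, τ, cub τ) ∈ O}`. -/
def RfiStmt : Prop := ∀ d : ℝ, d ≠ 0 → ∀ P0 Q0 : Pt d, (IdC P0 → IdC Q0) → OnU (kum d P0 Q0) →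
  ∀ V : Set (ℝ × ℝ × ℝ), IsOpen V → kum d P0 Q0 ∈ V → ∀ k0 m : ℤ, Odd m →
    ∃ (k : ℤ) (T : Set ℝ), m ∣ k - k0 ∧ IsOpen T ∧ T.Nonempty ∧ ∀ τ ∈ T, ck k τ ∈ V ∧ OnU (ck k τ)

/-- **RXD** (medium; uses RFI, RCO, CON, DEN, INV, FRA, FRE).  The real place, theorem `rxd (..) : RxdStmt` (Exports.lean).
PROOF.  DEN for the letter `.act 1 (-b) 0 1`: `z' ∈ V` and `z` with `Step (.act 1 (-b) 0 1) z' z`.  FRE: `z' = kum d P0 Q0`, `d = cub z'.1`.  If `IdC P0 → IdC Q0`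
take `L = []`, RFI for `V`.  Otherwise `L = [.act 1 b 0 1]`: INV gives `Step (.act 1 b 0 1) z z'`, CON: an open `W ∋ z` which the letter maps into `V`;
`z = kum d (P0 - sm b Q0) Q0` (FRA), `¬ IdC (P0 - sm b Q0)` since `IdC P0`, `¬ IdC Q0`, `b` odd (RCO); RFI for `W`. -/
def RxdRow : Prop := RxdStmt

end Pool.Agent.WAQ.R
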